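import Pool.Agent.R932.OP.RootE

/-! The symplectic Lie algebra from one generic similitude: the form of S_ROOT without the splitting condition
(the proof is the one of OP-ROOTE by helper872, for similitudes) -/

set_option autoImplicit false

open Matrix Polynomial
open Pool.Agent.Y142.ZO Pool.Agent.Y142.ZS
open Pool.Agent.R932.OP (descend)

namespace Pool.Agent.R932.EV

/-- the form of `S_ROOT` without the splitting condition -/
def S_ROOTS : Prop := ∀ (F : Type) [Field F] [CharZero F] (N : ℕ)
  (J g : Matrix (Fin N) (Fin N) F) (c : F) (𝔤 : Submodule F (Matrix (Fin N) (Fin N) F)),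
  Jᵀ = -J → J.det ≠ 0 → c ≠ 0 → Sim J g c → g.charpoly.Separable →
  Generic g.charpoly c →
  (∀ Z ∈ 𝔤, ∃ μ : F, Zᵀ * J + J * Z = μ • J) → (∀ X ∈ 𝔤, ∀ Y ∈ 𝔤, X * Y - Y * X ∈ 𝔤) →
  (∀ Z ∈ 𝔤, g * Z * g⁻¹ ∈ 𝔤) →
  (∀ 𝒜 : Subalgebra F (Matrix (Fin N) (Fin N) F), (∀ Z ∈ 𝔤, Z ∈ 𝒜) → 𝒜 = ⊤) →
  ∀ X, SpLie J X → X ∈ 𝔤

theorem roots (hROOT : S_ROOT) : S_ROOTS := by
  classical
  intro F _ _ N J g c 𝔤 hJ hJd hc hsim hsep hgen h𝔤 hbr had habs X hX
  apply descend
  set K := AlgebraicClosure F with hK
  let i : F →+* K := algebraMap F K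
  let S : Set (Matrix (Fin N) (Fin N) K) := (fun Z : Matrix (Fin N) (Fin N) F => Z.map i) ''
    (𝔤 : Set (Matrix (Fin N) (Fin N) F))
  have hmulmap : ∀ A A' : Matrix (Fin N) (Fin N) F, (A * A').map i = A.map i * A'.map i :=
    fun A A' => Matrix.map_mul
  have hcp : (g.map i).charpoly = g.charpoly.map i := Matrix.charpoly_map g i
  have hJ' : (J.map i)ᵀ = -(J.map i) := by
    rw [← Matrix.transpose_map, hJ]
    ext a b
    simp
  have hmapsmul : ∀ (r : F) (A : Matrix (Fin N) (Fin N) F), (r • A).map i = i r • A.map i := by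
    intro r A
    ext a b
    simp
  have hcz : CharZero K := charZero_of_injective_algebraMap (algebraMap F K).injective
  have hgdet : IsUnit g.det := by
    rw [isUnit_iff_ne_zero]
    intro h0
    have h1 := congrArg Matrix.det (show gᵀ * J * g = c • J from hsim)
    rw [Matrix.det_mul, Matrix.det_mul, h0, mul_zero, Matrix.det_smul] at h1
    exact mul_ne_zero (pow_ne_zero _ hc) hJd h1.symm
  have hginv : (g.map i)⁻¹ = (g⁻¹).map i := by
    refine Matrix.inv_eq_right_inv ?_
    rw [← hmulmap, Matrix.mul_nonsing_inv g hgdet]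
    exact Matrix.map_one i (map_zero i) (map_one i)
  have hsplits : (g.map i).charpoly.Splits := IsAlgClosed.splits _
  refine hROOT K N (J.map i) (g.map i) (i c) (Submodule.span K S) hJ' ?_ ?_ ?_ hsplits ?_ ?_ ?_ ?_ ?_ ?_
    (X.map i) ?_
  · -- determinant
    have h1 : (J.map i).det = i J.det := (RingHom.map_det i J).symm
    rw [h1]
    exact fun h0 => hJd ((map_eq_zero i).1 h0)
  · exact fun h0 => hc ((map_eq_zero i).1 h0)
  · -- similitude
    show (g.map i)ᵀ * J.map i * g.map i = i c • J.map i
    rw [← Matrix.transpose_map, ← hmulmap, ← hmulmap]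
    rw [show gᵀ * J * g = c • J from hsim, hmapsmul]
  · rw [hcp]
    exact hsep.map
  · -- generic
    have hlift : ∀ y : AlgebraicClosure K, aeval y (g.map i).charpoly = 0 →
        ∃ x : K, aeval x g.charpoly = 0 ∧ algebraMap K (AlgebraicClosure K) x = y := by
      intro y hy
      have h1 : (g.map i).charpoly ≠ 0 := (g.map i).charpoly_monic.ne_zero
      have h2 : y ∈ ((g.map i).charpoly.map (algebraMap K (AlgebraicClosure K))).roots := by
        rw [Polynomial.mem_roots (Polynomial.map_ne_zero h1), Polynomial.IsRoot.def,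
          Polynomial.eval_map_algebraMap]
        exact hy
      rw [hsplits.roots_map] at h2
      obtain ⟨x, hx, hxy⟩ := Multiset.mem_map.1 h2
      refine ⟨x, ?_, hxy⟩
      have h3 := (Polynomial.mem_roots h1).1 hx
      rw [hcp, Polynomial.IsRoot.def, Polynomial.eval_map_algebraMap] at h3
      exact h3
    intro x' y' z' w' hx' hy' hz' hw' hxy hxw
    obtain ⟨x, hx, rfl⟩ := hlift x' hx'
    obtain ⟨y, hy, rfl⟩ := hlift y' hy'
    obtain ⟨z, hz, rfl⟩ := hlift z' hz'
    obtain ⟨w, hw, rfl⟩ := hlift w' hw'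
    have hinj := (algebraMap K (AlgebraicClosure K)).injective
    rw [← map_mul, ← map_mul] at hxw
    rcases hgen x y z w hx hy hz hw (fun h => hxy (by rw [h])) (hinj hxw) with h | h
    · left
      rw [h.1, h.2]
      exact ⟨rfl, rfl⟩
    · right
      rw [← map_mul, ← map_mul, h.1, h.2]
      exact ⟨rfl, rfl⟩
  · -- infinitesimal similitudes
    intro Z hZ
    induction hZ using Submodule.span_induction with
    | mem Z hZ =>
      obtain ⟨Y, hY, rfl⟩ := hZ
      obtain ⟨μ, h1⟩ := h𝔤 Y hY
      refine ⟨i μ, ?_⟩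
      show (Y.map i)ᵀ * J.map i + J.map i * Y.map i = i μ • J.map i
      rw [← Matrix.transpose_map, ← hmulmap, ← hmulmap, ← Matrix.map_add i (map_add i), h1, hmapsmul]
    | zero => exact ⟨0, by simp⟩
    | add Y Z _ _ h1 h2 =>
      obtain ⟨μ, h1⟩ := h1
      obtain ⟨ν, h2⟩ := h2
      refine ⟨μ + ν, ?_⟩
      rw [Matrix.transpose_add, add_mul, mul_add, add_smul, ← h1, ← h2]
      abel
    | smul r Y _ h1 =>
      obtain ⟨μ, h1⟩ := h1
      refine ⟨r * μ, ?_⟩
      rw [Matrix.transpose_smul, Matrix.smul_mul, Matrix.mul_smul, ← smul_add, h1, smul_smul]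
  · -- brackets
    intro Y hY Z hZ
    induction hY using Submodule.span_induction with
    | mem Y hY =>
      obtain ⟨Y, hY, rfl⟩ := hY
      induction hZ using Submodule.span_induction with
      | mem Z hZ =>
        obtain ⟨Z, hZ, rfl⟩ := hZ
        apply Submodule.subset_span
        refine ⟨Y * Z - Z * Y, hbr Y hY Z hZ, ?_⟩
        show (Y * Z - Z * Y).map i = Y.map i * Z.map i - Z.map i * Y.map i
        rw [← hmulmap, ← hmulmap]
        exact Matrix.map_sub i (map_sub i) _ _
      | zero => simp
      | add A B _ _ h1 h2 =>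
        have h3 := Submodule.add_mem _ h1 h2
        convert h3 using 1
        noncomm_ring
      | smul r A _ h1 =>
        have h3 := Submodule.smul_mem _ r h1
        convert h3 using 1
        rw [smul_sub, Matrix.smul_mul, Matrix.mul_smul]
    | zero => simp
    | add A B _ _ h1 h2 =>
      have h3 := Submodule.add_mem _ h1 h2
      convert h3 using 1
      noncomm_ring
    | smul r A _ h1 =>
      have h3 := Submodule.smul_mem _ r h1
      convert h3 using 1
      rw [smul_sub, Matrix.smul_mul, Matrix.mul_smul]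
  · -- conjugation
    intro Z hZ
    induction hZ using Submodule.span_induction with
    | mem Z hZ =>
      obtain ⟨Z, hZ, rfl⟩ := hZ
      apply Submodule.subset_span
      refine ⟨g * Z * g⁻¹, had Z hZ, ?_⟩
      show (g * Z * g⁻¹).map i = g.map i * Z.map i * (g.map i)⁻¹
      rw [hginv, hmulmap, hmulmap]
    | zero => simp
    | add A B _ _ h1 h2 =>
      rw [mul_add, add_mul]
      exact Submodule.add_mem _ h1 h2
    | smul r A _ h1 =>
      rw [Matrix.mul_smul, Matrix.smul_mul]
      exact Submodule.smul_mem _ r h1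
  · -- irreducibility
    intro W hW
    let 𝒜 : Subalgebra F (Matrix (Fin N) (Fin N) F) :=
      { carrier := {A | ∀ w ∈ W, A.map i *ᵥ w ∈ W}
        mul_mem' := by
          intro A B hA hB w hw
          rw [hmulmap, ← Matrix.mulVec_mulVec]
          exact hA _ (hB _ hw)
        add_mem' := by
          intro A B hA hB w hw
          rw [Matrix.map_add i (map_add i), Matrix.add_mulVec]
          exact W.add_mem (hA w hw) (hB w hw)
        algebraMap_mem' := by
          intro r w hw
          have h1 : (algebraMap F (Matrix (Fin N) (Fin N) F) r).map i = (i r) • (1 : Matrix _ _ K) := by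
            ext a b
            rw [Matrix.map_apply, Matrix.algebraMap_matrix_apply, Matrix.smul_apply, Matrix.one_apply]
            by_cases hab : a = b
            · simp [hab]
            · simp [hab]
          rw [h1, Matrix.smul_mulVec, Matrix.one_mulVec]
          exact W.smul_mem _ hw }
    have h𝒜 : ∀ A, A ∈ 𝒜 ↔ ∀ w ∈ W, A.map i *ᵥ w ∈ W := fun A => Iff.rfl
    have htop := habs 𝒜 (fun Z hZ w hw => hW _ (Submodule.subset_span ⟨Z, hZ, rfl⟩) w hw)
    have hall : ∀ A : Matrix (Fin N) (Fin N) F, ∀ w ∈ W, A.map i *ᵥ w ∈ W := by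
      intro A
      rw [← h𝒜, htop]
      exact Algebra.mem_top
    by_cases hbot : W = ⊥
    · exact Or.inl hbot
    right
    obtain ⟨w, hw, hw0⟩ := Submodule.exists_mem_ne_zero_of_ne_bot hbot
    obtain ⟨j, hj⟩ := Function.ne_iff.1 hw0
    rw [Pi.zero_apply] at hj
    have hsingle : ∀ a : Fin N, Pi.single a (1 : K) ∈ W := by
      intro a
      have h1 := hall (Matrix.single a j 1) w hw
      have h2 := W.smul_mem (w j)⁻¹ h1
      convert h2 using 1
      ext b
      rw [Pi.smul_apply, smul_eq_mul]
      simp only [Matrix.mulVec, dotProduct, Matrix.map_apply]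
      rw [Finset.sum_eq_single j]
      · by_cases hab : a = b
        · subst hab
          simp [hj]
        · simp [hab, Ne.symm hab]
      · intro k _ hk
        simp [Ne.symm hk]
      · intro hk
        exact absurd (Finset.mem_univ _) hk
    rw [eq_top_iff]
    intro v _
    have h1 : v = ∑ a, v a • Pi.single a (1 : K) := by
      ext b
      simp [Finset.sum_apply, Pi.single_apply]
    rw [h1]
    exact W.sum_mem fun a _ => W.smul_mem _ (hsingle a)
  · show (X.map i)ᵀ * J.map i + J.map i * X.map i = 0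
    have h1 : Xᵀ * J + J * X = 0 := hX
    rw [← Matrix.transpose_map, ← hmulmap, ← hmulmap, ← Matrix.map_add i (map_add i), h1]
    exact Matrix.map_zero i (map_zero i)

end Pool.Agent.R932.EV
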