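import Pool.Agent.R932.EV.Ss
import Pool.Agent.R932.EV.RootS
import Pool.Agent.R932.OP.SymB
import Pool.Agent.R932.OP.OrthA
import Pool.Agent.R932.OP.OrthE

/-!
# From one prime to every prime at which the representation is semisimple with scalar commutants
-/

set_option autoImplicit false
set_option linter.unusedSectionVars false
set_option linter.style.haveILetI false

open Matrix Polynomial Filter Topology NumberField IsDedekindDomain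
open Pool.Agent.Y142.ZO Pool.Agent.Y142.ZI Pool.Agent.Y142.ZS
open Pool.Agent.Y142.ZD (GenO generic_of_gen)
open Pool.Agent.R932.OP

namespace Pool.Agent.R932.EV

section
variable {K : Type} [Field K] [NumberField K] {N : ℕ} {S : Set (HeightOneSpectrum (𝓞 K))}
  {P : HeightOneSpectrum (𝓞 K) → ℚ[X]} {q : HeightOneSpectrum (𝓞 K) → ℚ}
  {Γ : Type} [Group Γ] [TopologicalSpace Γ] [IsTopologicalGroup Γ] [CompactSpace Γ]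

/-- symplectic case, with one generic place -/
theorem full_of_genP {w : HeightOneSpectrum (𝓞 K)} (hw : GenP S P q w) (ℓ : ℕ) [hℓ : Fact ℓ.Prime]
    (s : GK K →* Γ) (ρ : Γ →* Matrix (Fin N) (Fin N) ℚ_[ℓ]) (J : Matrix (Fin N) (Fin N) ℚ_[ℓ])
    (hJ : Jᵀ = -J) (hdet : J.det ≠ 0) (hsim : ∀ g, ∃ c, Sim J (ρ g) c)
    (hfrob : ∀ σ : GK K, IsFrobenius w σ →
      (ρ (s σ⁻¹)).charpoly = (P w).map (algebraMap ℚ ℚ_[ℓ]) ∧ Sim J (ρ (s σ⁻¹)) (q w : ℚ_[ℓ]))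
    (halg : ∀ 𝒜 : Subalgebra ℚ_[ℓ] (Matrix (Fin N) (Fin N) ℚ_[ℓ]),
      (∀ X, IsTangent ℓ ρ X → X ∈ 𝒜) → 𝒜 = ⊤) : FullSp ℓ ρ J := by
  obtain ⟨hvS, hmon, hsep, hq, hgen⟩ := hw
  obtain ⟨σ, hσ⟩ := Pool.Agent.W401.Frob.exists_frob w
  obtain ⟨hchar, hmult⟩ := hfrob σ hσ
  obtain ⟨𝔤, h𝔤, hbr, had, -⟩ := Y708.ZO.t ℓ N Γ ρ
  set g : Matrix (Fin N) (Fin N) ℚ_[ℓ] := ρ (s σ⁻¹) with hg
  have hinv : g⁻¹ = ρ (s σ) := by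
    apply Matrix.inv_eq_right_inv
    rw [hg, ← map_mul, ← map_mul, inv_mul_cancel, map_one, map_one]
  intro X hX
  refine (h𝔤 X).1 (roots Y929.ZS.t_root ℚ_[ℓ] N J g (q w : ℚ_[ℓ]) 𝔤 hJ hdet (by exact_mod_cast hq)
    hmult (by rw [hchar]; exact hsep.map) ?_ ?_ hbr ?_ ?_ X hX)
  · -- generic
    intro x' y' z' w' hx' hy' hz' hw' hxy hxw
    obtain ⟨ι⟩ := emb ℓ
    rw [hchar] at hx' hy' hz' hw'
    obtain ⟨x, hx, rfl⟩ := lift_root ℓ ι hmon.ne_zero hx'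
    obtain ⟨y, hy, rfl⟩ := lift_root ℓ ι hmon.ne_zero hy'
    obtain ⟨z, hz, rfl⟩ := lift_root ℓ ι hmon.ne_zero hz'
    obtain ⟨w, hw, rfl⟩ := lift_root ℓ ι hmon.ne_zero hw'
    rw [← map_mul, ← map_mul] at hxw
    have hc : ∀ t : ℚ, algebraMap ℚ_[ℓ] (AlgebraicClosure ℚ_[ℓ]) (t : ℚ_[ℓ]) = ι (t : QQ) := by
      intro t
      rw [map_ratCast, map_ratCast]
    rcases hgen x y z w hx hy hz hw (fun h => hxy (by rw [h])) (ι.injective hxw) with h | h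
    · left
      rw [h.1, h.2]
      exact ⟨rfl, rfl⟩
    · right
      rw [hc, ← map_mul, ← map_mul, h.1, h.2]
      exact ⟨rfl, rfl⟩
  · intro Z hZ
    exact Y710.ZS.t1 ℓ N Γ ρ J hdet hsim Z ((h𝔤 Z).1 hZ)
  · intro Z hZ
    rw [hinv]
    have h1 := had (s σ⁻¹) Z hZ
    rw [← map_inv, inv_inv] at h1
    exact h1
  · intro 𝒜 h𝒜
    exact halg 𝒜 fun X hX => h𝒜 X ((h𝔤 X).2 hX)

/-- orthogonal case of even rank, with one generic place -/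
theorem full_of_genO {w : HeightOneSpectrum (𝓞 K)} (hw : GenO S P w) (ℓ : ℕ) [hℓ : Fact ℓ.Prime]
    (s : GK K →* Γ) (ρ : Γ →* Matrix (Fin N) (Fin N) ℚ_[ℓ]) (B : Matrix (Fin N) (Fin N) ℚ_[ℓ])
    (hB : Bᵀ = B) (hdet : B.det ≠ 0) (hiso : ∀ g, Isom B (ρ g))
    (hfrob : ∀ σ : GK K, IsFrobenius w σ →
      (ρ (s σ⁻¹)).charpoly = (P w).map (algebraMap ℚ ℚ_[ℓ]))
    (halg : ∀ 𝒜 : Subalgebra ℚ_[ℓ] (Matrix (Fin N) (Fin N) ℚ_[ℓ]),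
      (∀ X, IsTangent ℓ ρ X → X ∈ 𝒜) → 𝒜 = ⊤) : FullLie ℓ ρ B := by
  have hnice := hw.1
  obtain ⟨σ, hσ⟩ := Pool.Agent.W401.Frob.exists_frob w
  have hchar := hfrob σ hσ
  obtain ⟨𝔤, h𝔤, hbr, had, hskew⟩ := Y708.ZO.t ℓ N Γ ρ
  set g : Matrix (Fin N) (Fin N) ℚ_[ℓ] := ρ (s σ⁻¹) with hg
  have hinv : g⁻¹ = ρ (s σ) := by
    apply Matrix.inv_eq_right_inv
    rw [hg, ← map_mul, ← map_mul, inv_mul_cancel, map_one, map_one]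
  have hsep : g.charpoly.Separable := by rw [hchar]; exact hnice.2.2.1.map
  intro X hX
  refine (h𝔤 X).1 (roote ℚ_[ℓ] N B g 𝔤 hB hdet (hiso _) hsep
    (by rw [hchar]; exact generic_of_gen hw ℓ) ?_ (fun Z hZ => hskew B hB hiso Z hZ) hbr ?_ ?_ X hX)
  · intro x hx
    obtain ⟨ι⟩ := emb ℓ
    rw [hchar] at hx
    obtain ⟨r, hr, rfl⟩ := lift_root ℓ ι hnice.2.1.ne_zero hx
    rw [← map_mul]
    intro h
    exact hw.2.1 r hr (ι.injective (by rw [h, map_one]))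
  · intro Z hZ
    rw [hinv]
    have h1 := had (s σ⁻¹) Z hZ
    rw [← map_inv, inv_inv] at h1
    exact h1
  · intro 𝒜 h𝒜
    exact halg 𝒜 fun X hX => h𝒜 X ((h𝔤 X).2 hX)

/-- orthogonal case of odd rank, with one good place -/
theorem full_of_good {v₀ : HeightOneSpectrum (𝓞 K)} {Q₀ : ℚ[X]} (hv₀ : GoodPlace S P v₀ Q₀)
    (h0 : ∀ x y z : ℂ, aeval x Q₀ = 0 → aeval y Q₀ = 0 → aeval z Q₀ = 0 → x * y ≠ z)
    (ℓ : ℕ) [hℓ : Fact ℓ.Prime]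
    (s : GK K →* Γ) (ρ : Γ →* Matrix (Fin N) (Fin N) ℚ_[ℓ]) (B : Matrix (Fin N) (Fin N) ℚ_[ℓ])
    (hcont : Continuous ρ) (hB : Bᵀ = B) (hdet : B.det ≠ 0) (hiso : ∀ g, Isom B (ρ g))
    (hfrob : ∀ σ : GK K, IsFrobenius v₀ σ →
      (ρ (s σ⁻¹)).charpoly = (P v₀).map (algebraMap ℚ ℚ_[ℓ]))
    (hgood : StronglyIrreducible ℓ ρ) : FullLie ℓ ρ B := by
  obtain ⟨hv₀S, hP₀, hcop⟩ := hv₀
  obtain ⟨σ₀, hσ₀⟩ := Pool.Agent.W401.Frob.exists_frob v₀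
  have hchar := hfrob σ₀ hσ₀
  set g : Matrix (Fin N) (Fin N) ℚ_[ℓ] := ρ (s σ₀⁻¹) with hg
  set Q : ℚ_[ℓ][X] := Q₀.map (algebraMap ℚ ℚ_[ℓ]) with hQ
  have hchar' : g.charpoly = (X - 1) * Q := by
    rw [hchar, hP₀, Polynomial.map_mul, Polynomial.map_sub, map_X, Polynomial.map_one]
  have hcopQ : ∀ n : ℕ, 0 < n → IsCoprime Q (X ^ n - 1) := fun n hn => coprime_map (hcop n hn)
  have hQ0 := eval_ne_zero_of_coprime hcopQ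
  have hQ1 : Q.eval 1 ≠ 0 := left_ne_zero_of_mul hQ0
  obtain ⟨e, he, hbe⟩ := Y337.ZO.line_t ℚ_[ℓ] N B g Q hB hdet (hiso _) hchar' hQ1
  have hge : g *ᵥ e = e := by
    have h1 := he.2.1
    rw [sub_mulVec, one_mulVec, sub_eq_zero] at h1
    exact h1
  obtain ⟨𝔤, h𝔤, hbr, had, hskew⟩ := Y708.ZO.t ℓ N Γ ρ
  have hskew' := hskew B hB hiso
  have hinv : g⁻¹ = ρ (s σ₀) := by
    apply Matrix.inv_eq_right_inv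
    rw [hg, ← map_mul, ← map_mul, inv_mul_cancel, map_one, map_one]
  have hQ₀0 : Q₀ ≠ 0 := by
    rintro rfl
    rw [hQ, Polynomial.map_zero, eval_zero] at hQ1
    exact hQ1 rfl
  have hspec : ∀ x y z : AlgebraicClosure ℚ_[ℓ], aeval x Q = 0 → aeval y Q = 0 → aeval z Q = 0 →
      x * y ≠ z := by
    intro x y z hx hy hz
    have conv : ∀ w : AlgebraicClosure ℚ_[ℓ], aeval w Q = 0 →
        eval₂ (Rat.castHom (AlgebraicClosure ℚ_[ℓ])) w Q₀ = 0 := by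
      intro w hw
      rw [aeval_def, hQ, eval₂_map] at hw
      rw [← hw]
      congr 1
    exact transfer hQ₀0 h0 _ x y z (conv x hx) (conv y hy) (conv z hz)
  have hsplit := Y96.ZO.t ℚ_[ℓ] N B g e Q 𝔤 hB hdet (hiso _) hge hbe hchar' hspec hskew' (by
    intro Z hZ
    rw [hinv]
    have h1 := had (s σ₀⁻¹) Z hZ
    rw [← map_inv, inv_inv] at h1
    exact h1)
  intro X hX
  refine (h𝔤 X).1 (so_main ℚ_[ℓ] N B e 𝔤 hB hdet hskew' hbr hsplit hbe ?_ X hX)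
  intro W hW
  obtain ⟨U, hU, hUW⟩ := Y497.ZO.exp ℓ N Γ ρ hcont W W le_rfl
    (fun X hX w hw => hW X ((h𝔤 X).2 hX) w hw)
  refine hgood U W hU fun σ hσ w hw => ?_
  have h1 := W.add_mem (hUW σ hσ w hw) hw
  rwa [sub_add_cancel] at h1

/-- the set of exceptional places and the places above a prime -/
theorem finite_union (hS : S.Finite) (ℓ : ℕ) (hℓ : ℓ.Prime) :
    (S ∪ {v : HeightOneSpectrum (𝓞 K) | (ℓ : 𝓞 K) ∈ v.asIdeal}).Finite :=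
  hS.union (finite_above ℓ hℓ)

/-- **symplectic systems: from one prime to every prime with semisimple representation and scalar
commutants** -/
theorem sp_every (hN : 0 < N) (hS : S.Finite) (s : GK K →* Γ)
    (ρ : ∀ (ℓ : ℕ) [Fact ℓ.Prime], Γ →* Matrix (Fin N) (Fin N) ℚ_[ℓ])
    (J : ∀ (ℓ : ℕ) [Fact ℓ.Prime], Matrix (Fin N) (Fin N) ℚ_[ℓ])
    (hcont : ∀ (ℓ : ℕ) [Fact ℓ.Prime], Continuous (ρ ℓ))
    (hsim : ∀ (ℓ : ℕ) [Fact ℓ.Prime], ∀ g, ∃ c, Sim (J ℓ) (ρ ℓ g) c)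
    (hsys : ∀ (ℓ : ℕ) [Fact ℓ.Prime], SpSys K N ℓ ((ρ ℓ).comp s) (J ℓ) S P q)
    (ℓ₀ : ℕ) [hℓ₀ : Fact ℓ₀.Prime] (h2 : ℓ₀ ≠ 2) (hfull : FullSp ℓ₀ ((ρ ℓ₀).comp s) (J ℓ₀))
    (ℓ : ℕ) [hℓ : Fact ℓ.Prime] (hss : SS (ρ ℓ)) (hsc : SC (ρ ℓ)) : FullSp ℓ (ρ ℓ) (J ℓ) := by
  obtain ⟨m, hm⟩ : ∃ m, N = 2 * m + 2 := by
    obtain ⟨k, hk⟩ := even_of_alt (hsys ℓ₀).2.1 (hsys ℓ₀).2.2.1
    exact ⟨k - 1, by omega⟩
  subst hm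
  have hsys' : ∀ (p : ℕ) [Fact p.Prime], SpSys K (2 * m + 2) p ((ρ p).comp s) (J p)
      (S ∪ {v : HeightOneSpectrum (𝓞 K) | (ℓ : 𝓞 K) ∈ v.asIdeal}) P q := fun p _ =>
    ⟨(hsys p).1, (hsys p).2.1, (hsys p).2.2.1, (hsys p).2.2.2.1,
      fun v hv => (hsys p).2.2.2.2 v fun h => hv (Or.inl h)⟩
  obtain ⟨-, w, -, hw, -⟩ := start Y537.ZI.t Y405.ZO.t Y779.ZS.t sform typcu typg
    (finite_union hS ℓ hℓ.out) (fun p _ => (ρ p).comp s) J hsys' ℓ₀ h2 hfull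
  have hwℓ : (ℓ : 𝓞 K) ∉ w.asIdeal := fun h => hw.1 (Or.inr h)
  have hwS : w ∉ S := fun h => hw.1 (Or.inl h)
  refine full_of_genP hw ℓ s (ρ ℓ) (J ℓ) (hsys ℓ).2.1 (hsys ℓ).2.2.1 (hsim ℓ)
    (fun σ hσ => (hsys ℓ).2.2.2.2 w hwS hwℓ σ hσ) ?_
  exact fun 𝒜 h𝒜 => alg_top (ρ ℓ) (hcont ℓ) hN (strong_of_ss (ρ ℓ) hss hsc) hsc 𝒜 h𝒜

/-- **orthogonal systems of odd rank: from one prime to every prime with a strongly irreducible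
representation** -/
theorem so_odd_every (hodd : Odd N) (hN : 3 ≤ N) (hS : S.Finite) (s : GK K →* Γ)
    (ρ : ∀ (ℓ : ℕ) [Fact ℓ.Prime], Γ →* Matrix (Fin N) (Fin N) ℚ_[ℓ])
    (B : ∀ (ℓ : ℕ) [Fact ℓ.Prime], Matrix (Fin N) (Fin N) ℚ_[ℓ])
    (hcont : ∀ (ℓ : ℕ) [Fact ℓ.Prime], Continuous (ρ ℓ))
    (hiso : ∀ (ℓ : ℕ) [Fact ℓ.Prime], ∀ g, Isom (B ℓ) (ρ ℓ g))
    (hsys : ∀ (ℓ : ℕ) [Fact ℓ.Prime], Orthogonal K N ℓ ((ρ ℓ).comp s) (B ℓ) S P)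
    (ℓ₀ : ℕ) [hℓ₀ : Fact ℓ₀.Prime] (h2 : ℓ₀ ≠ 2) (hfull : FullLie ℓ₀ ((ρ ℓ₀).comp s) (B ℓ₀))
    (ℓ : ℕ) [hℓ : Fact ℓ.Prime] (hirr : StronglyIrreducible ℓ (ρ ℓ)) : FullLie ℓ (ρ ℓ) (B ℓ) := by
  obtain ⟨m, hm⟩ : ∃ m, N = 2 * m + 3 := by
    obtain ⟨k, hk⟩ := hodd
    exact ⟨k - 1, by omega⟩
  subst hm
  have hsys' : ∀ (p : ℕ) [Fact p.Prime], Orthogonal K (2 * m + 3) p ((ρ p).comp s) (B p)
      (S ∪ {v : HeightOneSpectrum (𝓞 K) | (ℓ : 𝓞 K) ∈ v.asIdeal}) P := fun p _ =>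
    ⟨(hsys p).1, (hsys p).2.1, (hsys p).2.2.1, (hsys p).2.2.2.1,
      fun v hv => (hsys p).2.2.2.2 v fun h => hv (Or.inl h)⟩
  obtain ⟨v₀, Q₀, hv₀, h0, -⟩ := good_of_full Y405.ZO.t Y537.ZI.t Y949.ZI.t R499.OP.form1 typx
    (finite_union hS ℓ hℓ.out) (fun p _ => (ρ p).comp s) B hsys' ℓ₀ h2 hfull
  have hvℓ : (ℓ : 𝓞 K) ∉ v₀.asIdeal := fun h => hv₀.1 (Or.inr h)
  have hvS : v₀ ∉ S := fun h => hv₀.1 (Or.inl h)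
  exact full_of_good hv₀ h0 ℓ s (ρ ℓ) (B ℓ) (hcont ℓ) (hsys ℓ).2.1 (hsys ℓ).2.2.1 (hiso ℓ)
    (fun σ hσ => (hsys ℓ).2.2.2.2 v₀ hvS hvℓ σ hσ) hirr

/-- **orthogonal systems of even rank: from one prime to every prime with semisimple representation and
scalar commutants** -/
theorem so_even_every (heven : Even N) (hN : 8 ≤ N) (hS : S.Finite) (s : GK K →* Γ)
    (ρ : ∀ (ℓ : ℕ) [Fact ℓ.Prime], Γ →* Matrix (Fin N) (Fin N) ℚ_[ℓ])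
    (B : ∀ (ℓ : ℕ) [Fact ℓ.Prime], Matrix (Fin N) (Fin N) ℚ_[ℓ])
    (hcont : ∀ (ℓ : ℕ) [Fact ℓ.Prime], Continuous (ρ ℓ))
    (hiso : ∀ (ℓ : ℕ) [Fact ℓ.Prime], ∀ g, Isom (B ℓ) (ρ ℓ g))
    (hsys : ∀ (ℓ : ℕ) [Fact ℓ.Prime], Orthogonal K N ℓ ((ρ ℓ).comp s) (B ℓ) S P)
    (ℓ₀ : ℕ) [hℓ₀ : Fact ℓ₀.Prime] (hdvd : ¬ ℓ₀ ∣ (N - 2) * (N - 4))
    (hfull : FullLie ℓ₀ ((ρ ℓ₀).comp s) (B ℓ₀)) (hev : Even (Padic.valuation (B ℓ₀).det))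
    (ℓ : ℕ) [hℓ : Fact ℓ.Prime] (hss : SS (ρ ℓ)) (hsc : SC (ρ ℓ)) : FullLie ℓ (ρ ℓ) (B ℓ) := by
  obtain ⟨n, hn⟩ : ∃ n, N = 2 * n := by
    obtain ⟨k, hk⟩ := heven
    exact ⟨k, by omega⟩
  have hn4 : 4 ≤ n := by omega
  have hL : ¬ ℓ₀ ∣ 4 * ((n - 1) * (n - 2)) := by
    have h1 : (N - 2) * (N - 4) = 4 * ((n - 1) * (n - 2)) := by
      have h2 : N - 2 = 2 * (n - 1) := by omega
      have h3 : N - 4 = 2 * (n - 2) := by omega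
      rw [h2, h3]
      ring
    rwa [h1] at hdvd
  have hsys' : ∀ (p : ℕ) [Fact p.Prime], Orthogonal K N p ((ρ p).comp s) (B p)
      (S ∪ {v : HeightOneSpectrum (𝓞 K) | (ℓ : 𝓞 K) ∈ v.asIdeal}) P := fun p _ =>
    ⟨(hsys p).1, (hsys p).2.1, (hsys p).2.2.1, (hsys p).2.2.2.1,
      fun v hv => (hsys p).2.2.2.2 v fun h => hv (Or.inl h)⟩
  obtain ⟨-, -, w, -, -, hw, -⟩ := Y142.ZD.startE hn4 hn Y537.ZI.t Y405.ZO.t chare Y331.ZD.t fda fdb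
    typd3 (tame nr) (finite_union hS ℓ hℓ.out) (fun p _ => (ρ p).comp s) B hsys' ℓ₀ hL hfull hev
  have hwℓ : (ℓ : 𝓞 K) ∉ w.asIdeal := fun h => hw.1.1 (Or.inr h)
  have hwS : w ∉ S := fun h => hw.1.1 (Or.inl h)
  refine full_of_genO hw ℓ s (ρ ℓ) (B ℓ) (hsys ℓ).2.1 (hsys ℓ).2.2.1 (hiso ℓ)
    (fun σ hσ => (hsys ℓ).2.2.2.2 w hwS hwℓ σ hσ) ?_
  exact fun 𝒜 h𝒜 => alg_top (ρ ℓ) (hcont ℓ) (by omega) (strong_of_ss (ρ ℓ) hss hsc) hsc 𝒜 h𝒜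

end

end Pool.Agent.R932.EV
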