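import Pool.Agent.Y758.ZD.Abs
import Pool.Agent.Y142.ZI.Stm

/-!
# Semisimple representations with scalar commutants over open subgroups are strongly irreducible, and the
tangent vectors generate the matrix algebra
-/

set_option autoImplicit false
set_option linter.unusedSectionVars false
set_option linter.style.haveILetI false

open Matrix Polynomial Filter Topology
open Pool.Agent.Y142.ZO Pool.Agent.Y142.ZI

namespace Pool.Agent.R932.EV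

section cliff
variable {F Γ : Type} [Field F] [Group Γ] {N : ℕ}

/-- every stable subspace has a stable complement -/
def SS (ρ : Γ →* Matrix (Fin N) (Fin N) F) : Prop :=
  ∀ W : Submodule F (Fin N → F), (∀ σ, ∀ w ∈ W, ρ σ *ᵥ w ∈ W) →
    ∃ W' : Submodule F (Fin N → F), IsCompl W W' ∧ ∀ σ, ∀ w ∈ W', ρ σ *ᵥ w ∈ W'

/-- every matrix which commutes with an open subgroup is scalar -/
def SC [TopologicalSpace Γ] (ρ : Γ →* Matrix (Fin N) (Fin N) F) : Prop :=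
  ∀ (A : Matrix (Fin N) (Fin N) F) (U : Subgroup Γ), IsOpen (U : Set Γ) →
    (∀ σ ∈ U, A * ρ σ = ρ σ * A) → ∃ c : F, A = c • (1 : Matrix (Fin N) (Fin N) F)

/-- Clifford: for a normal subgroup every nonzero stable subspace contains a nonzero one with a stable
complement -/
theorem compl_of_normal (ρ : Γ →* Matrix (Fin N) (Fin N) F) (hss : SS ρ) (U : Subgroup Γ)
    (hU : U.Normal) (W₀ : Submodule F (Fin N → F)) (hW₀ : ∀ σ ∈ U, ∀ w ∈ W₀, ρ σ *ᵥ w ∈ W₀)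
    (hne : W₀ ≠ ⊥) :
    ∃ W C : Submodule F (Fin N → F), W ≤ W₀ ∧ W ≠ ⊥ ∧ IsCompl W C ∧
      (∀ σ ∈ U, ∀ w ∈ W, ρ σ *ᵥ w ∈ W) ∧ (∀ σ ∈ U, ∀ w ∈ C, ρ σ *ᵥ w ∈ C) := by
  classical
  obtain ⟨W, ⟨hWst, hWle, hWne⟩, hWmin⟩ :=
    (wellFounded_lt (α := Submodule F (Fin N → F))).has_min
      {W | (∀ σ ∈ U, ∀ w ∈ W, ρ σ *ᵥ w ∈ W) ∧ W ≤ W₀ ∧ W ≠ ⊥} ⟨W₀, hW₀, le_rfl, hne⟩
  obtain ⟨C, ⟨hCst, hCd⟩, hCmax⟩ :=
    (wellFounded_gt (α := Submodule F (Fin N → F))).has_min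
      {C | (∀ σ ∈ U, ∀ w ∈ C, ρ σ *ᵥ w ∈ C) ∧ Disjoint W C}
      ⟨⊥, by
        refine ⟨?_, disjoint_bot_right⟩
        intro σ _ w hw
        rw [Submodule.mem_bot] at hw ⊢
        rw [hw, mulVec_zero]⟩
  have hinf : ∀ A B : Submodule F (Fin N → F), (∀ σ ∈ U, ∀ w ∈ A, ρ σ *ᵥ w ∈ A) →
      (∀ σ ∈ U, ∀ w ∈ B, ρ σ *ᵥ w ∈ B) → ∀ σ ∈ U, ∀ w ∈ A ⊓ B, ρ σ *ᵥ w ∈ A ⊓ B :=
    fun A B hA hB σ hσ w hw => ⟨hA σ hσ w hw.1, hB σ hσ w hw.2⟩
  have hsup : ∀ A B : Submodule F (Fin N → F), (∀ σ ∈ U, ∀ w ∈ A, ρ σ *ᵥ w ∈ A) →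
      (∀ σ ∈ U, ∀ w ∈ B, ρ σ *ᵥ w ∈ B) → ∀ σ ∈ U, ∀ w ∈ A ⊔ B, ρ σ *ᵥ w ∈ A ⊔ B := by
    intro A B hA hB σ hσ w hw
    obtain ⟨a, ha, b, hb, rfl⟩ := Submodule.mem_sup.1 hw
    rw [mulVec_add]
    exact Submodule.add_mem_sup (hA σ hσ a ha) (hB σ hσ b hb)
  have htr : ∀ (g : Γ) (A : Submodule F (Fin N → F)), (∀ σ ∈ U, ∀ w ∈ A, ρ σ *ᵥ w ∈ A) →
      ∀ σ ∈ U, ∀ w ∈ A.map (toLin' (ρ g)), ρ σ *ᵥ w ∈ A.map (toLin' (ρ g)) := by
    rintro g A hA σ hσ _ ⟨w, hw, rfl⟩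
    refine ⟨ρ (g⁻¹ * σ * g) *ᵥ w, hA _ ?_ w hw, ?_⟩
    · have := hU.conj_mem σ hσ g⁻¹
      rwa [inv_inv] at this
    · rw [toLin'_apply, toLin'_apply, mulVec_mulVec, mulVec_mulVec, ← map_mul, ← map_mul]
      congr 2
      group
  have hmm : ∀ (g h : Γ) (A : Submodule F (Fin N → F)),
      (A.map (toLin' (ρ h))).map (toLin' (ρ g)) = A.map (toLin' (ρ (g * h))) := by
    intro g h A
    rw [← Submodule.map_comp, ← toLin'_mul, ← MonoidHom.map_mul]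
  have hm1 : ∀ A : Submodule F (Fin N → F), A.map (toLin' (ρ 1)) = A := by
    intro A
    rw [map_one, toLin'_one, Submodule.map_id]
  have hgne : ∀ g : Γ, W.map (toLin' (ρ g)) ≠ ⊥ := by
    intro g h0
    apply hWne
    have h1 := congrArg (Submodule.map (toLin' (ρ g⁻¹))) h0
    rwa [hmm, inv_mul_cancel, hm1, Submodule.map_bot] at h1
  have hle : ∀ g : Γ, W.map (toLin' (ρ g)) ≤ W ⊔ C := by
    intro g
    have hDst := hinf _ _ (htr g W hWst) (hsup W C hWst hCst)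
    by_cases h0 : W.map (toLin' (ρ g)) ⊓ (W ⊔ C) = ⊥
    · exfalso
      refine hCmax (C ⊔ W.map (toLin' (ρ g))) ⟨hsup C _ hCst (htr g W hWst), ?_⟩ ?_
      · exact Disjoint.disjoint_sup_right_of_disjoint_sup_left hCd
          (disjoint_iff.2 (by rw [inf_comm]; exact h0))
      · show C < C ⊔ W.map (toLin' (ρ g))
        refine lt_of_le_of_ne le_sup_left fun h => hgne g ?_
        have h1 : W.map (toLin' (ρ g)) ≤ C := by
          rw [h]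
          exact le_sup_right
        rw [eq_bot_iff, ← h0]
        exact le_inf le_rfl (h1.trans le_sup_right)
    · have h1 : (W.map (toLin' (ρ g)) ⊓ (W ⊔ C)).map (toLin' (ρ g⁻¹)) ≤ W := by
        have h2 : (W.map (toLin' (ρ g)) ⊓ (W ⊔ C)).map (toLin' (ρ g⁻¹)) ≤
            (W.map (toLin' (ρ g))).map (toLin' (ρ g⁻¹)) := Submodule.map_mono inf_le_left
        rwa [hmm, inv_mul_cancel, hm1] at h2
      have h2 : (W.map (toLin' (ρ g)) ⊓ (W ⊔ C)).map (toLin' (ρ g⁻¹)) = W := by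
        by_contra h3
        refine hWmin _ ⟨htr g⁻¹ _ hDst, h1.trans hWle, ?_⟩ (lt_of_le_of_ne h1 h3)
        intro h4
        apply h0
        have h5 := congrArg (Submodule.map (toLin' (ρ g))) h4
        rwa [hmm, mul_inv_cancel, hm1, Submodule.map_bot] at h5
      have h3 := congrArg (Submodule.map (toLin' (ρ g))) h2
      rw [hmm, mul_inv_cancel, hm1] at h3
      rw [← h3]
      exact inf_le_right
  have hMst : ∀ σ, ∀ w ∈ ⨆ g : Γ, W.map (toLin' (ρ g)), ρ σ *ᵥ w ∈ ⨆ g : Γ, W.map (toLin' (ρ g)) := by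
    intro σ w hw
    have h1 : (⨆ g : Γ, W.map (toLin' (ρ g))).map (toLin' (ρ σ)) ≤ ⨆ g : Γ, W.map (toLin' (ρ g)) := by
      rw [Submodule.map_iSup]
      refine iSup_le fun g => ?_
      rw [hmm]
      exact le_iSup (fun g : Γ => W.map (toLin' (ρ g))) (σ * g)
    exact h1 ⟨w, hw, toLin'_apply _ _⟩
  obtain ⟨M', hMM', hM'⟩ := hss _ hMst
  set M : Submodule F (Fin N → F) := ⨆ g : Γ, W.map (toLin' (ρ g)) with hM
  have hWM : W ≤ M := by
    have h1 := le_iSup (fun g : Γ => W.map (toLin' (ρ g))) 1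
    rwa [hm1] at h1
  have hMle : M ≤ W ⊔ C := iSup_le hle
  have hMeq : W ⊔ C ⊓ M = M := by
    rw [← sup_inf_assoc_of_le C hWM]
    exact inf_eq_right.2 hMle
  refine ⟨W, C ⊓ M ⊔ M', hWle, hWne, ?_, hWst, ?_⟩
  · have h1 : Disjoint W (C ⊓ M) := hCd.mono_right inf_le_left
    refine ⟨Disjoint.disjoint_sup_right_of_disjoint_sup_left h1 (by rw [hMeq]; exact hMM'.disjoint), ?_⟩
    rw [codisjoint_iff, ← sup_assoc, hMeq]
    exact hMM'.codisjoint.eq_top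
  · exact hsup _ _ (hinf _ _ hCst fun σ _ w hw => hMst σ w hw) fun σ _ w hw => hM' σ w hw

end cliff

section strong
variable {ℓ : ℕ} [Fact ℓ.Prime] {G : Type} [Group G] [TopologicalSpace G] [IsTopologicalGroup G]
  [CompactSpace G] {N : ℕ}

theorem strong_of_ss (ρ : G →* Matrix (Fin N) (Fin N) ℚ_[ℓ]) (hss : SS ρ) (hsc : SC ρ) :
    StronglyIrreducible ℓ ρ := by
  intro U W₀ hU hW₀
  by_cases hne : W₀ = ⊥
  · exact Or.inl hne
  right
  have hcl : IsClosed (U : Set G) := U.isClosed_of_isOpen hU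
  obtain ⟨H, hH⟩ := IsTopologicalGroup.exist_openNormalSubgroup_sub_clopen_nhds_of_one
    (⟨hcl, hU⟩ : IsClopen (U : Set G)) U.one_mem
  have hHo : IsOpen ((H.toSubgroup : Subgroup G) : Set G) := H.isOpen'
  obtain ⟨W, C, hWle, hWne, hWC, hWst, hCst⟩ := compl_of_normal ρ hss H.toSubgroup H.isNormal' W₀
    (fun σ hσ w hw => hW₀ σ (hH hσ) w hw) hne
  set p : (Fin N → ℚ_[ℓ]) →ₗ[ℚ_[ℓ]] (Fin N → ℚ_[ℓ]) := W.subtype ∘ₗ W.projectionOnto C hWC with hp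
  have hin : ∀ x, p x ∈ W := fun x => (W.projectionOnto C hWC x).2
  have hfix : ∀ x ∈ W, p x = x := by
    intro x hx
    have h := W.projectionOnto_apply_left hWC ⟨x, hx⟩
    exact congrArg Subtype.val h
  have hzero : ∀ x ∈ C, p x = 0 := by
    intro x hx
    have h := (W.projectionOnto_apply_eq_zero_iff hWC (x := x)).2 hx
    rw [hp, LinearMap.comp_apply, h, map_zero]
  have hcomm : ∀ σ ∈ H.toSubgroup, ∀ x, p (ρ σ *ᵥ x) = ρ σ *ᵥ p x := by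
    intro σ hσ x
    have hx : x ∈ W ⊔ C := by rw [hWC.sup_eq_top]; trivial
    obtain ⟨a, ha, b, hb, rfl⟩ := Submodule.mem_sup.1 hx
    rw [mulVec_add, map_add, map_add, hfix a ha, hzero b hb, hfix _ (hWst σ hσ a ha),
      hzero _ (hCst σ hσ b hb), add_zero, add_zero]
  obtain ⟨c, hc⟩ := hsc (LinearMap.toMatrix' p) H.toSubgroup hHo (by
    intro σ hσ
    apply Matrix.toLin'.injective
    rw [toLin'_mul, toLin'_mul, toLin'_toMatrix']
    refine LinearMap.ext fun x => ?_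
    show p (toLin' (ρ σ) x) = toLin' (ρ σ) (p x)
    rw [toLin'_apply, toLin'_apply]
    exact hcomm σ hσ x)
  have hpc : ∀ x, p x = c • x := by
    intro x
    have h1 : toLin' (LinearMap.toMatrix' p) x = p x := by rw [toLin'_toMatrix']
    rw [← h1, hc, toLin'_apply, smul_mulVec, one_mulVec]
  obtain ⟨w, hw, hw0⟩ := Submodule.exists_mem_ne_zero_of_ne_bot hWne
  have hc1 : c = 1 := by
    have h1 := (hpc w).symm.trans (hfix w hw)
    have h2 : (c - 1) • w = 0 := by rw [sub_smul, one_smul, h1, sub_self]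
    rcases smul_eq_zero.1 h2 with h3 | h3
    · exact sub_eq_zero.1 h3
    · exact absurd h3 hw0
  have hWtop : W = ⊤ := by
    rw [eq_top_iff]
    intro x _
    have h1 := hpc x
    rw [hc1, one_smul] at h1
    rw [← h1]
    exact hin x
  rw [eq_top_iff, ← hWtop]
  exact hWle

/-- the tangent vectors generate the algebra of all matrices -/
theorem alg_top (ρ : G →* Matrix (Fin N) (Fin N) ℚ_[ℓ]) (hρ : Continuous ρ) (hN : 0 < N)
    (hSI : StronglyIrreducible ℓ ρ) (hsc : SC ρ)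
    (𝒜 : Subalgebra ℚ_[ℓ] (Matrix (Fin N) (Fin N) ℚ_[ℓ])) (h𝒜 : ∀ X, IsTangent ℓ ρ X → X ∈ 𝒜) :
    𝒜 = ⊤ := by
  haveI : Nonempty (Fin N) := ⟨⟨0, hN⟩⟩
  have hirr : ∀ W : Submodule ℚ_[ℓ] (Fin N → ℚ_[ℓ]),
      (∀ X, IsTangent ℓ ρ X → ∀ w ∈ W, X *ᵥ w ∈ W) → W = ⊥ ∨ W = ⊤ := by
    intro W hW
    obtain ⟨U, hU, h1⟩ := Pool.Agent.Y497.ZO.exp ℓ N G ρ hρ W W le_rfl hW
    refine hSI U W hU fun τ hτ w hw => ?_
    have h2 := W.add_mem (h1 τ hτ w hw) hw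
    rwa [sub_add_cancel] at h2
  let S : Subalgebra ℚ_[ℓ] (Module.End ℚ_[ℓ] (Fin N → ℚ_[ℓ])) :=
    𝒜.map (Matrix.toLinAlgEquiv' : Matrix (Fin N) (Fin N) ℚ_[ℓ] ≃ₐ[ℚ_[ℓ]] _).toAlgHom
  have hmem : ∀ X ∈ 𝒜, Matrix.toLin' X ∈ S := fun X hX => ⟨X, hX, rfl⟩
  have hirrS : ∀ W : Submodule ℚ_[ℓ] (Fin N → ℚ_[ℓ]), (∀ f ∈ S, ∀ w ∈ W, f w ∈ W) →
      W = ⊥ ∨ W = ⊤ := by
    intro W hW
    refine hirr W fun X hX w hw => ?_
    have := hW _ (hmem X (h𝒜 X hX)) w hw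
    rwa [Matrix.toLin'_apply] at this
  have hcom : ∀ d : Module.End ℚ_[ℓ] (Fin N → ℚ_[ℓ]), (∀ f ∈ S, d * f = f * d) →
      ∃ c : ℚ_[ℓ], ∀ v, d v = c • v := by
    intro d hd
    obtain ⟨D, rfl⟩ : ∃ D : Matrix (Fin N) (Fin N) ℚ_[ℓ], Matrix.toLin' D = d :=
      ⟨LinearMap.toMatrix' d, Matrix.toLin'_toMatrix' d⟩
    have hD : ∀ X ∈ 𝒜, D * X = X * D := by
      intro X hX
      have h1 := hd _ (hmem X hX)
      rw [Module.End.mul_eq_comp, Module.End.mul_eq_comp, ← Matrix.toLin'_mul,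
        ← Matrix.toLin'_mul] at h1
      exact Matrix.toLin'.injective h1
    obtain ⟨⟨U, hU, hnear⟩, -⟩ := Pool.Agent.Y497.ZO.pow ℓ N G ρ hρ
    obtain ⟨c, hc⟩ := hsc D U hU fun σ hσ =>
      Pool.Agent.Y758.ZD.comm_near ρ D (fun X hX => hD X (h𝒜 X hX)) σ (hnear σ hσ)
    refine ⟨c, fun v => ?_⟩
    rw [hc, toLin'_apply, smul_mulVec, one_mulVec]
  have hS := Pool.Agent.Y758.ZD.burnside S hirrS hcom
  rw [eq_top_iff]
  intro X _
  have h1 : Matrix.toLin' X ∈ S := by rw [hS]; trivial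
  obtain ⟨Y, hY, hXY⟩ := h1
  have h2 : Y = X := Matrix.toLin'.injective hXY
  rw [← h2]
  exact hY

end strong

end Pool.Agent.R932.EV
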